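import Pool.Agent.W822.PD.Stm
import Pool.Agent.W92.DP.Dich

/-!
Two visits of a box by a periodic orbit with large excursions on both arcs imply four arms
(adaptation of `Pool.Agent.W92.DP.{Loop,Dich}` to periodic orbits; helper500).
-/

set_option autoImplicit false

namespace Pool.Agent.W500.PD

open H974 H12S Finset H389NS H984P H984N H342P H984P.SideAux
open Pool.Agent.W92.DP (mv_op rt_op mv_inj rt_inj z2s T4 inc Lk pot4 Bd mem_Bd blk_of_ends dl_blk
  first_hit last_hit bd_of exit_to bdB_Bd Bd_mono face_near face_step A4d)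
open Pool.Agent.W822.PD (PD_UO)

variable {G : Set Edg} {τ : St} {N : ℕ}

/-- The states visited at the times `i ≤ s < l`. -/
def AA (G : Set Edg) (τ : St) (i l : ℕ) : Set St := {ρ | ∃ s, i ≤ s ∧ s < l ∧ orb G τ s = ρ}

/-- The states at the times `< N` are distinct. -/
def Inj (G : Set Edg) (τ : St) (N : ℕ) : Prop :=
  ∀ s t, s < N → t < N → orb G τ s = orb G τ t → s = t

theorem AA_nxt (hI : Inj G τ N) {i l : ℕ} (hil : i < l) (hl : l < N)
    (ρ : St) : b2 (ρ ∈ AA G τ i l) + b2 (nxt (G) ρ ∈ AA G τ i l) =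
      b2 (nxt (G) ρ = orb G τ i) + b2 (nxt (G) ρ = orb G τ l) := by
  have h1 : (ρ ∈ AA G τ i l) ↔ ∃ s, i < s ∧ s ≤ l ∧ orb G τ s = nxt (G) ρ := by
    constructor
    · rintro ⟨s, h1, h2, rfl⟩
      exact ⟨s + 1, by omega, by omega, orb_succ G τ s⟩
    · rintro ⟨s, h1, h2, h3⟩
      obtain ⟨s, rfl⟩ : ∃ s', s = s' + 1 := ⟨s - 1, by omega⟩
      rw [orb_succ] at h3
      exact ⟨s, by omega, by omega, (nxt_bij _).1 h3⟩
  rw [b2_congr h1]
  generalize nxt (G) ρ = x
  by_cases hx : x = orb G τ i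
  · have n1 : ¬ ∃ s, i < s ∧ s ≤ l ∧ orb G τ s = x := by
      rintro ⟨s, g1, g2, g3⟩
      rw [hx] at g3
      have := hI _ _ (by omega) (by omega) g3
      omega
    have n2 : x ∈ AA G τ i l := ⟨i, le_rfl, hil, hx.symm⟩
    have n3 : ¬ x = orb G τ l := by
      intro g
      rw [hx] at g
      have := hI _ _ (by omega) hl g
      omega
    rw [b2_not_of n1, b2_of n2, b2_of hx, b2_not_of n3]
    rfl
  · by_cases hy : x = orb G τ l
    · have n1 : ∃ s, i < s ∧ s ≤ l ∧ orb G τ s = x := ⟨l, hil, le_rfl, hy.symm⟩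
      have n2 : ¬ x ∈ AA G τ i l := by
        rintro ⟨s, g1, g2, g3⟩
        rw [hy] at g3
        have := hI _ _ (by omega) hl g3
        omega
      rw [b2_of n1, b2_not_of n2, b2_not_of hx, b2_of hy, add_comm]
    · have n1 : (∃ s, i < s ∧ s ≤ l ∧ orb G τ s = x) ↔ x ∈ AA G τ i l := by
        constructor
        · rintro ⟨s, g1, g2, g3⟩
          refine ⟨s, g1.le, lt_of_le_of_ne g2 ?_, g3⟩
          rintro rfl
          exact hy g3.symm
        · rintro ⟨s, g1, g2, g3⟩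
          refine ⟨s, lt_of_le_of_ne g1 ?_, g2.le, g3⟩
          rintro rfl
          exact hx g3.symm
      rw [b2_congr n1, b2_not_of hx, b2_not_of hy, z2s]
      rfl

theorem AA_T4 (hI : Inj G τ N) {i l : ℕ} (hil : i < l) (hl : l < N)
    (ρ : St) : T4 (fun ρ => b2 (ρ ∈ AA G τ i l)) ρ = inc (orb G τ i) ρ + inc (orb G τ l) ρ := by
  have h1 := AA_nxt hI hil hl ρ
  have h2 := AA_nxt hI hil hl (op ρ)
  unfold T4 inc
  by_cases h : ae ρ ∈ G
  · have h' : ae (op ρ) ∈ G := by rw [ae_op]; exact h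
    rw [nxt_open h] at h1
    rw [nxt_open h', mv_op] at h2
    linear_combination h1 + h2
  · have h' : ae (op ρ) ∉ G := by rw [ae_op]; exact h
    rw [nxt_closed h] at h1
    rw [nxt_closed h', rt_op] at h2
    linear_combination h1 + h2

/-- No potential: the far state of an excursion is separated from the start by the box. -/
theorem sep (hI : Inj G τ N) {c : ℤ × ℤ} {d : ℕ}
    (hs : τ.1 ∉ Bd c d) {i j l : ℕ} (hi0 : 0 < i) (hij : i < j) (hjl : j < l) (hl : l < N)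
    (hi : (orb G τ i).1 ∈ Bd c d) (hll : (orb G τ l).1 ∈ Bd c d)
    (hj : (orb G τ j).1 ∉ Bd c d)
    (h1 : Reach (G \ ↑(blk c (d + 2))) τ.1 (orb G τ j).1)
    (h2 : DReach {e | e ∉ G ∧ dl e ∉ blk c (d + 2)} (face τ) (face (orb G τ j))) :
    False := by
  obtain ⟨β, hβ1, hβ2⟩ := Lk.box (a := c.1 - d) (b := c.1 + d) (c := c.2 - d) (d := c.2 + d)
    (σ := orb G τ i) (τ := orb G τ l) hi hll
  have hil : i < l := hij.trans hjl
  obtain ⟨hv, hf, hpot⟩ := pot4 (fun ρ => b2 (ρ ∈ AA G τ i l) + β ρ) (by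
    intro ρ
    have e1 := AA_T4 hI hil hl ρ
    have e2 := hβ2 ρ
    have e3 := z2s (inc (orb G τ i) ρ)
    have e4 := z2s (inc (orb G τ l) ρ)
    unfold T4 at e1 e2 ⊢
    linear_combination e1 + e2 + e3 + e4)
  -- vertices
  have hop : ∀ ρ : St, ae ρ ∈ G → ae ρ ∉ blk c (d + 2) → hv ρ.1 = hv (mv ρ).1 := by
    intro ρ g1 g2
    have k1 : ρ.1 ∉ Bd c d ∧ (mv ρ).1 ∉ Bd c d := by
      rw [blk_of_ends] at g2
      obtain ⟨⟨x, y⟩, q⟩ := ρ
      cases q <;>
        simp only [ae_ne, ae_nw, ae_sw, ae_se, mv_ne, mv_nw, mv_sw, mv_se, src_mk, tgt_true,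
          tgt_false, mem_Bd] at g2 ⊢ <;> push_cast at g2 ⊢ <;> omega
    have k2 := hpot ρ
    have k3 := hpot (mv ρ)
    have k4 := AA_nxt hI hil hl ρ
    simp only [hβ1 ρ k1.1, add_zero] at k2
    simp only [hβ1 (mv ρ) k1.2, add_zero, face_mv] at k3
    have k5 : ¬ mv ρ = orb G τ i := fun g => k1.2 (g ▸ hi)
    have k6 : ¬ mv ρ = orb G τ l := fun g => k1.2 (g ▸ hll)
    rw [nxt_open g1, b2_not_of k5, b2_not_of k6, add_zero] at k4
    have k7 := z2s (hf (face ρ))
    exact z2_eq (by linear_combination k2 + k3 + k4 - k7)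
  have hrV : ∀ v, Reach (G \ ↑(blk c (d + 2))) τ.1 v → hv τ.1 = hv v := by
    intro v h
    induction h with
    | refl => rfl
    | tail _ hst ih =>
      obtain ⟨e, ⟨he1, he2⟩, h⟩ := hst
      obtain ⟨ρ, rfl⟩ := exists_ae e
      have k := hop ρ he1 he2
      rw [mv_fst] at k
      rcases ends ρ with ⟨e3, e4⟩ | ⟨e3, e4⟩ <;> rw [e3, e4] at h <;>
        rcases h with ⟨e5, e6⟩ | ⟨e5, e6⟩ <;> rw [ih, ← e5, ← e6, k]
  -- faces
  have hcl : ∀ ρ : St, ae ρ ∉ G → dl (ae ρ) ∉ blk c (d + 2) →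
      hf (face ρ) = hf (face (rt ρ)) := by
    intro ρ g1 g2
    have k1 : ρ.1 ∉ Bd c d := by
      rw [dl_blk] at g2
      obtain ⟨⟨x, y⟩, q⟩ := ρ
      cases q <;>
        simp only [ae_ne, ae_nw, ae_sw, ae_se, dsrc_true, dsrc_false, dtgt_mk, mem_Bd] at g2 ⊢ <;>
        push_cast at g2 ⊢ <;> omega
    have k1' : (rt ρ).1 ∉ Bd c d := by rw [rt_fst]; exact k1
    have k2 := hpot ρ
    have k3 := hpot (rt ρ)
    have k4 := AA_nxt hI hil hl ρ
    simp only [hβ1 ρ k1, add_zero] at k2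
    simp only [hβ1 (rt ρ) k1', add_zero, rt_fst] at k3
    have k5 : ¬ rt ρ = orb G τ i := fun g => k1' (g ▸ hi)
    have k6 : ¬ rt ρ = orb G τ l := fun g => k1' (g ▸ hll)
    rw [nxt_closed g1, b2_not_of k5, b2_not_of k6, add_zero] at k4
    have k7 := z2s (hv ρ.1)
    exact z2_eq (by linear_combination k2 + k3 + k4 - k7)
  have hrF : ∀ f, DReach {e | e ∉ G ∧ dl e ∉ blk c (d + 2)} (face τ) f →
      hf (face τ) = hf f := by
    intro f h
    induction h with
    | refl => rfl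
    | tail _ hst ih =>
      obtain ⟨e, ⟨he1, he2⟩, h⟩ := hst
      obtain ⟨ρ, rfl⟩ := exists_ae e
      have k := hcl ρ he1 he2
      rw [face_rt] at k
      rcases faces ρ with ⟨e3, e4⟩ | ⟨e3, e4⟩ <;> rw [e3, e4] at h <;>
        rcases h with ⟨e5, e6⟩ | ⟨e5, e6⟩ <;> rw [ih, ← e5, ← e6, k]
  have e1 := hpot τ
  have e2 := hpot (orb G τ j)
  have n1 : τ ∉ AA G τ i l := by
    rintro ⟨s, g1, g2, g3⟩
    have h0 : orb G τ 0 = orb G τ s := by rw [g3]; rfl
    have := hI _ _ (by omega) (by omega) h0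
    omega
  have n2 : orb G τ j ∈ AA G τ i l := ⟨j, hij.le, hjl, rfl⟩
  have n3 : β τ = 0 := hβ1 _ hs
  have n4 : β (orb G τ j) = 0 := hβ1 _ hj
  simp only [n3, n4, add_zero, b2_not_of n1, b2_of n2] at e1 e2
  have e3 : hv τ.1 + hf (face τ) = 0 := e1
  rw [← hrV _ h1, ← hrF _ h2, e3] at e2
  exact absurd e2 (by decide)

theorem chain {c : ℤ × ℤ} {d : ℕ} {a b : ℕ} (hab : a ≤ b)
    (h : ∀ s, a ≤ s → s < b → ¬ ((orb G τ s).1 ∈ Bd c d ∧ (orb G τ (s + 1)).1 ∈ Bd c d)) :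
    Reach (G \ ↑(blk c d)) (orb G τ a).1 (orb G τ b).1 := by
  induction b, hab using Nat.le_induction with
  | base => exact Reach.refl _ _
  | succ b hb ih =>
    refine (ih (fun s h1 h2 => h s h1 (by omega))).trans ?_
    have h1 := h b hb (Nat.lt_succ_self _)
    rw [orb_succ] at h1 ⊢
    by_cases ho : ae (orb G τ b) ∈ G
    · rw [nxt_open ho] at h1 ⊢
      rw [mv_fst] at h1 ⊢
      have hb' : ae (orb G τ b) ∉ blk c d := by
        intro h2
        rw [blk_of_ends] at h2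
        rcases ends (orb G τ b) with ⟨e1, e2⟩ | ⟨e1, e2⟩ <;> rw [e1, e2] at h2
        · exact h1 h2
        · exact h1 h2.symm
      apply Relation.ReflTransGen.single
      exact ⟨ae (orb G τ b), ⟨ho, hb'⟩, ends _⟩
    · rw [nxt_closed ho, rt_fst]
      exact Reach.refl _ _

theorem dchain {c : ℤ × ℤ} {d : ℕ} {a b : ℕ} (hab : a ≤ b)
    (h : ∀ s, a ≤ s → s < b →
      ¬ (face (orb G τ s) ∈ Bd c d ∧ face (orb G τ (s + 1)) ∈ Bd c d)) :
    DReach {e | e ∉ G ∧ dl e ∉ blk c d} (face (orb G τ a)) (face (orb G τ b)) := by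
  induction b, hab using Nat.le_induction with
  | base => exact DReach.refl _ _
  | succ b hb ih =>
    refine (ih (fun s h1 h2 => h s h1 (by omega))).trans ?_
    have h1 := h b hb (Nat.lt_succ_self _)
    rw [orb_succ] at h1 ⊢
    by_cases ho : ae (orb G τ b) ∈ G
    · rw [nxt_open ho, face_mv]
      exact DReach.refl _ _
    · rw [nxt_closed ho] at h1 ⊢
      rw [face_rt] at h1 ⊢
      have hb' : dl (ae (orb G τ b)) ∉ blk c d := by
        intro h2
        rw [dl_blk] at h2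
        rcases faces (orb G τ b) with ⟨e1, e2⟩ | ⟨e1, e2⟩ <;> rw [e1, e2] at h2
        · exact h1 h2
        · exact h1 h2.symm
      apply Relation.ReflTransGen.single
      exact ⟨ae (orb G τ b), ⟨ho, hb'⟩, faces _⟩

theorem core {F : Finset Edg} (hI : Inj (↑F : Set Edg) τ N) {c : ℤ × ℤ} {d k : ℕ}
    (hdk : d + 6 ≤ k) (hτ : τ.1 ∉ Bd c k) {i j l : ℕ} (hi0 : 0 < i) (hij : i < j) (hjl : j < l)
    (hlen : l < N) (hi : (orb (↑F : Set Edg) τ i).1 ∈ Bd c d)
    (hll : (orb (↑F : Set Edg) τ l).1 ∈ Bd c d) (hj' : (orb (↑F : Set Edg) τ j).1 ∉ Bd c k) :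
    A4a c (d + 2) (k - 2) ↑F ∨ A4d c (d + 2) (k - 2) ↑F := by
  have hd2 : Bd c d ⊆ Bd c (d + 2) := Bd_mono (by omega)
  have hd2k : Bd c (d + 2) ⊆ Bd c (k - 2) := Bd_mono (by omega)
  have hk2k : Bd c (k - 2) ⊆ Bd c k := Bd_mono (by omega)
  have ek : ((k - 2 : ℕ) : ℤ) = (k:ℤ) - 2 := by omega
  have hfar : ∀ σ : St, σ.1 ∉ Bd c k → face σ ∉ Bd c (k - 2) := by
    intro σ hσ
    have h1 := face_near σ
    rw [abs_le, abs_le] at h1
    rw [mem_Bd] at hσ ⊢
    rw [ek]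
    omega
  by_cases hα : Reach ((↑F : Set Edg) \ ↑(blk c (d + 2))) τ.1 (orb (↑F : Set Edg) τ j).1
  · right
    have hβ : ¬ DReach {e | e ∉ (↑F : Set Edg) ∧ dl e ∉ blk c (d + 2)} (face τ)
        (face (orb (↑F : Set Edg) τ j)) := fun h =>
      sep hI (fun h' => hτ (hk2k (hd2k (hd2 h')))) hi0 hij hjl hlen hi hll
        (fun h' => hj' (hk2k (hd2k (hd2 h')))) hα h
    -- faces
    have hi' : face (orb (↑F : Set Edg) τ i) ∈ Bd c (d + 2) := by
      have h1 := face_near (orb (↑F : Set Edg) τ i)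
      rw [abs_le, abs_le] at h1
      have h2 : (orb (↑F : Set Edg) τ i).1 ∈ Bd c d := hi
      rw [mem_Bd] at h2 ⊢
      push_cast
      omega
    have hfj : face (orb (↑F : Set Edg) τ j) ∉ Bd c (k - 2) := hfar _ hj'
    have hfτ : face τ ∉ Bd c (k - 2) := hfar _ hτ
    have h0 : face (orb (↑F : Set Edg) τ 0) ∉ Bd c (d + 2) := fun h' => hfτ (hd2k h')
    obtain ⟨a, ha0, hai, haP, haN⟩ := first_hit
      (P := fun s => face (orb (↑F : Set Edg) τ s) ∈ Bd c (d + 2)) h0 hi'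
    obtain ⟨b, hib, hbj, hbP, hbN⟩ := last_hit
      (P := fun s => face (orb (↑F : Set Edg) τ s) ∈ Bd c (d + 2))
      hi' (fun h' => hfj (hd2k h')) hij.le
    have r1 : DReach {e | e ∉ (↑F : Set Edg) ∧ dl e ∉ blk c (d + 2)} (face τ)
        (face (orb (↑F : Set Edg) τ a)) :=
      dchain (Nat.zero_le a) (fun s _ h2 h3 => haN s h2 h3.1)
    have r2 : DReach {e | e ∉ (↑F : Set Edg) ∧ dl e ∉ blk c (d + 2)}
        (face (orb (↑F : Set Edg) τ b)) (face (orb (↑F : Set Edg) τ j)) :=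
      dchain hbj.le (fun s h1 h2 h3 => hbN (s + 1) (by omega) (by omega) h3.2)
    have ba : face (orb (↑F : Set Edg) τ a) ∈ bdB c (d + 2) := by
      obtain ⟨a', rfl⟩ : ∃ a', a = a' + 1 := ⟨a - 1, by omega⟩
      refine bd_of haP (haN a' (by omega)) ?_
      rw [orb_succ]
      exact face_step _ _
    have bb : face (orb (↑F : Set Edg) τ b) ∈ bdB c (d + 2) := by
      refine bd_of hbP (hbN (b + 1) (by omega) (by omega)) ?_
      have := face_step (↑F : Set Edg) (orb (↑F : Set Edg) τ b)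
      rw [orb_succ, abs_sub_comm, abs_sub_comm (face (orb (↑F : Set Edg) τ b)).2]
      exact this
    have hsub : dl '' {e | e ∉ (↑F : Set Edg) ∧ dl e ∉ blk c (d + 2)} ∩ ↑(blk c (k - 2)) ⊆
        dl '' ((↑F : Set Edg)ᶜ) ∩ ↑(blk c (k - 2) \ blk c (d + 2)) := by
      rintro _ ⟨⟨e, ⟨h1, h2⟩, rfl⟩, h3⟩
      refine ⟨⟨e, h1, rfl⟩, ?_⟩
      rw [Finset.coe_sdiff]
      exact ⟨h3, h2⟩
    refine ⟨face (orb (↑F : Set Edg) τ a), ba, face (orb (↑F : Set Edg) τ b), bb, ?_, ?_, ?_⟩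
    · obtain ⟨w, hw, hr⟩ := exit_to (hd2k haP) (reach_dl.mpr r1.symm) hfτ
      exact ⟨w, hw, hr.mono hsub⟩
    · obtain ⟨w, hw, hr⟩ := exit_to (hd2k hbP) (reach_dl.mpr r2) hfj
      exact ⟨w, hw, hr.mono hsub⟩
    · intro hcon
      apply hβ
      refine r1.trans (DReach.trans ?_ r2)
      rw [← reach_dl]
      refine hcon.mono ?_
      rintro _ ⟨⟨e, h1, rfl⟩, h3⟩
      rw [Finset.coe_sdiff] at h3
      exact ⟨e, ⟨h1, h3.2⟩, rfl⟩
  · left
    have hjk : (orb (↑F : Set Edg) τ j).1 ∉ Bd c (k - 2) := fun h => hj' (hk2k h)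
    have hi' : (orb (↑F : Set Edg) τ i).1 ∈ Bd c (d + 2) := hd2 hi
    have h0 : (orb (↑F : Set Edg) τ 0).1 ∉ Bd c (d + 2) := fun h' => hτ (hk2k (hd2k h'))
    obtain ⟨a, ha0, hai, haP, haN⟩ := first_hit
      (P := fun s => (orb (↑F : Set Edg) τ s).1 ∈ Bd c (d + 2)) h0 hi'
    obtain ⟨b, hib, hbj, hbP, hbN⟩ := last_hit
      (P := fun s => (orb (↑F : Set Edg) τ s).1 ∈ Bd c (d + 2))
      hi' (fun h' => hjk (hd2k h')) hij.le
    have r1 : Reach ((↑F : Set Edg) \ ↑(blk c (d + 2))) τ.1 (orb (↑F : Set Edg) τ a).1 :=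
      chain (Nat.zero_le a) (fun s _ h2 h3 => haN s h2 h3.1)
    have r2 : Reach ((↑F : Set Edg) \ ↑(blk c (d + 2))) (orb (↑F : Set Edg) τ b).1
        (orb (↑F : Set Edg) τ j).1 :=
      chain hbj.le (fun s h1 h2 h3 => hbN (s + 1) (by omega) (by omega) h3.2)
    have ba : (orb (↑F : Set Edg) τ a).1 ∈ bdB c (d + 2) := by
      obtain ⟨a', rfl⟩ : ∃ a', a = a' + 1 := ⟨a - 1, by omega⟩
      refine bd_of haP (haN a' (by omega)) ?_
      rw [orb_succ]
      exact nxt_fst _ _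
    have bb : (orb (↑F : Set Edg) τ b).1 ∈ bdB c (d + 2) := by
      refine bd_of hbP (hbN (b + 1) (by omega) (by omega)) ?_
      have := nxt_fst (↑F : Set Edg) (orb (↑F : Set Edg) τ b)
      rw [orb_succ, abs_sub_comm, abs_sub_comm (orb (↑F : Set Edg) τ b).1.2]
      exact this
    have hsub : ((↑F : Set Edg) \ ↑(blk c (d + 2))) ∩ ↑(blk c (k - 2)) ⊆
        (↑F : Set Edg) ∩ ↑(blk c (k - 2) \ blk c (d + 2)) := by
      rintro e ⟨⟨h1, h2⟩, h3⟩
      rw [Finset.coe_sdiff]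
      exact ⟨h1, h3, h2⟩
    refine ⟨(orb (↑F : Set Edg) τ a).1, ba, (orb (↑F : Set Edg) τ b).1, bb, ?_, ?_, ?_⟩
    · obtain ⟨w, hw, hr⟩ := exit_to (hd2k haP) r1.symm (fun h' => hτ (hk2k h'))
      exact ⟨w, hw, hr.mono hsub⟩
    · obtain ⟨w, hw, hr⟩ := exit_to (hd2k hbP) r2 hjk
      exact ⟨w, hw, hr.mono hsub⟩
    · intro hcon
      apply hα
      refine r1.trans (Reach.trans ?_ r2)
      refine hcon.mono ?_
      rintro e ⟨h1, h3⟩
      rw [Finset.coe_sdiff] at h3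
      exact ⟨h1, h3.2⟩

/-- The step is injective, also when iterated. -/
theorem orb_cancel (G : Set Edg) (σ : St) (s t : ℕ) (h : orb G σ s = orb G σ (s + t)) :
    orb G σ t = σ := by
  induction s with
  | zero =>
    rw [Nat.zero_add, orb_zero] at h
    exact h.symm
  | succ s ih =>
    apply ih
    have e : s + 1 + t = (s + t) + 1 := by omega
    rw [e, orb_succ, orb_succ] at h
    exact (nxt_bij G).1 h

theorem inj_of (G : Set Edg) (σ : St) (N : ℕ) (hmin : ∀ j, 0 < j → j < N → orb G σ j ≠ σ)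
    (j' : ℕ) : Inj G (orb G σ j') N := by
  have key : ∀ s t, s ≤ t → t < N → orb G (orb G σ j') s = orb G (orb G σ j') t → s = t := by
    intro s t hst ht h
    rw [← orb_add, ← orb_add] at h
    by_contra hne
    have e : t + j' = (s + j') + (t - s) := by omega
    rw [e] at h
    exact hmin (t - s) (by omega) (by omega) (orb_cancel G σ _ _ h)
  intro s t hs ht h
  rcases Nat.le_total s t with h1 | h1
  · exact key s t h1 ht h
  · exact (key t s h1 hs h.symm).symm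

/-- **PD_UO** -/
theorem uo : PD_UO := by
  intro F σ N hN hper hmin c d k hdk i j l j' hij hjl hl hj'il hj'N hi hll hj hj'
  have hperj : ∀ s, orb (↑F : Set Edg) σ (s + N) = orb (↑F : Set Edg) σ s := by
    intro s
    rw [orb_add, hper]
  have hne : ∀ s t : ℕ, inR (c.1 - d) (c.1 + d) (c.2 - d) (c.2 + d) (orb (↑F) σ s).1 →
      ¬ inR (c.1 - k) (c.1 + k) (c.2 - k) (c.2 + k) (orb (↑F) σ t).1 →
      orb (↑F : Set Edg) σ s ≠ orb (↑F : Set Edg) σ t := by
    intro s t h1 h2 h3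
    rw [← h3] at h2
    exact h2 (Bd_mono (c := c) (d := d) (k := k) (by omega) h1)
  have hI := inj_of (↑F : Set Edg) σ N hmin j'
  rcases hj'il with h | h
  · have e : ∀ s, j' ≤ s → orb (↑F : Set Edg) (orb (↑F : Set Edg) σ j') (s - j') =
        orb (↑F : Set Edg) σ s := by
      intro s hs
      rw [← orb_add]
      congr 1
      omega
    have hlN : l - j' < N := by
      rcases Nat.lt_or_ge (l - j') N with h1 | h1
      · exact h1
      · exfalso
        have h2 : l = N := by omega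
        have h3 : j' = 0 := by omega
        apply hne l j' hll hj'
        rw [h2, h3, hper, orb_zero]
    refine core hI hdk hj' (i := i - j') (j := j - j') (l := l - j') (by omega) (by omega)
      (by omega) hlN ?_ ?_ ?_
    · rw [e i (by omega)]; exact hi
    · rw [e l (by omega)]; exact hll
    · rw [e j (by omega)]; exact hj
  · have e : ∀ s, s ≤ l → orb (↑F : Set Edg) (orb (↑F : Set Edg) σ j') (s + N - j') =
        orb (↑F : Set Edg) σ s := by
      intro s hs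
      rw [← orb_add, ← hperj s]
      congr 1
      omega
    have hi0 : 0 < i + N - j' := by
      rcases Nat.eq_zero_or_pos (i + N - j') with h1 | h1
      · exfalso
        have h2 : i = 0 := by omega
        have h3 : j' = N := by omega
        apply hne i j' hi hj'
        rw [h2, h3, hper, orb_zero]
      · exact h1
    refine core hI hdk hj' (i := i + N - j') (j := j + N - j') (l := l + N - j') hi0 (by omega)
      (by omega) (by omega) ?_ ?_ ?_
    · rw [e i (by omega)]; exact hi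
    · rw [e l (by omega)]; exact hll
    · rw [e j (by omega)]; exact hj

end Pool.Agent.W500.PD
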